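import Pool.Agent.KnotFloer.Alex

/-!
# `omega^+` can exceed `nu^+` by an arbitrarily large amount

For `r ≥ 1` let `K_r = T(8r,8r+1) # -T(2,16r^2-2r+1)_{2,32r^2-4r+1}`, a difference of two L-space
knots of the same genus.  The knot Floer complex of an L-space knot is the staircase read off from
its Alexander polynomial, and the complex of `K_r` is the tensor product of one staircase with the
dual of the other.  The theorem says that every bigraded complex homotopy equivalent to this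
tensor product has `nu^+ = 4r-1` and `omega^+ = 6r-1`.  In particular `omega^+ = nu^+ + 2` for
`r = 1`, that is for `T(8,9) # -T(2,15)_{2,29}`.
-/

namespace Pool.Agent.Results.MP_5bd73f_gt.Unbounded

open Pool.Agent.KnotFloer Polynomial

theorem result (r : ℕ) (hr : 1 ≤ r) :
    ∃ A B : Stair,
      IsTorusAlexander (8 * r) (8 * r + 1) A.alexander ∧
      (∃ Δ₁ Δ₂ : Polynomial ℤ,
        IsTorusAlexander 2 (16 * r ^ 2 - 2 * r + 1) Δ₁ ∧
        IsTorusAlexander 2 (32 * r ^ 2 - 4 * r + 1) Δ₂ ∧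
        B.alexander = Δ₁.comp (X ^ 2) * Δ₂) ∧
      ∀ C : Cplx, Nonempty (HtpyEquiv C (A.cplx.tensor B.cplx.dual)) →
        C.HasNuPlus (4 * r - 1) ∧ C.HasOmegaPlus (6 * r - 1) := by
  refine ⟨torusStair (8 * r), cableStair (8 * r ^ 2 - r), torus_alexander _ (by omega),
    ⟨_, _, torus2_alexander (16 * r ^ 2 - 2 * r + 1) ?_,
      torus2_alexander (32 * r ^ 2 - 4 * r + 1) ?_, ?_⟩, ?_⟩
  · have : 16 * r ^ 2 - 2 * r = 2 * (8 * r ^ 2 - r) := by omega
    rw [this]
    exact ⟨_, rfl⟩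
  · have : 32 * r ^ 2 - 4 * r = 2 * (16 * r ^ 2 - 2 * r) := by omega
    rw [this]
    exact ⟨_, rfl⟩
  · rw [cable_alexander]
    have h1 : 2 * (8 * r ^ 2 - r) + 1 = 16 * r ^ 2 - 2 * r + 1 := by omega
    have h2 : 4 * (8 * r ^ 2 - r) + 1 = 32 * r ^ 2 - 4 * r + 1 := by omega
    rw [h1, h2]
  · rintro C ⟨E⟩
    have e1 : ∀ (s : ℤ) (v : ℤ), C.HasV s v ↔ (famCplx r).HasV s v := by
      intro s v
      rw [Cplx.HasV, Cplx.HasV]
      simp only [tower_iff_of_htpy E]
    have e2 : ∀ (k : ℕ) (v : ℤ), C.HasY k v ↔ (famCplx r).HasY k v := by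
      intro k v
      rw [Cplx.HasY, Cplx.HasY, Cplx.HasV, Cplx.HasV]
      simp only [tower_iff_of_htpy (E.tensor _)]
    constructor
    · have h := fam_nuPlus r hr
      simp only [Cplx.HasNuPlus, e1] at h ⊢
      exact h
    · have h := fam_omegaPlus r hr
      simp only [Cplx.HasOmegaPlus, e2] at h ⊢
      exact h

end Pool.Agent.Results.MP_5bd73f_gt.Unbounded
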